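import Pool.Agent.Helper61.QS.GoalsG

/-!
# Project QS: the data of the ODE part
-/

set_option autoImplicit false

open Set ComplexConjugate

namespace Pool.Agent.Helper14.QS

open Pool.Agent.Helper61.QS

theorem dense_reg : Dense Reg := by
  have h1 : Dense {r : ℝ | Real.sin r ≠ 0 ∧ Real.cos r ≠ 0} := by
    have hc : ({r : ℝ | Real.sin r = 0 ∨ Real.cos r = 0}).Countable := by
      have hs : {r : ℝ | Real.sin r = 0 ∨ Real.cos r = 0} ⊆
          (range fun n : ℤ => (n : ℝ) * Real.pi) ∪
            (range fun n : ℤ => (2 * (n : ℝ) + 1) * Real.pi / 2) := by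
        rintro r (h | h)
        · left
          obtain ⟨n, hn⟩ := Real.sin_eq_zero_iff.1 h
          exact ⟨n, hn⟩
        · right
          obtain ⟨n, hn⟩ := Real.cos_eq_zero_iff.1 h
          exact ⟨n, hn.symm⟩
      exact ((countable_range _).union (countable_range _)).mono hs
    have h2 := hc.dense_compl ℝ
    refine h2.mono ?_
    intro r hr
    simp only [mem_compl_iff, mem_ofPred_eq, not_or] at hr
    exact hr
  have h2 : Dense {r : ℝ | Real.sin r ≠ 0} := h1.mono fun r hr => hr.1
  have h3 : Dense ({r : ℝ | Real.sin r ≠ 0} ×ˢ (univ : Set (ℝ × ℝ))) := h2.prod dense_univ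
  have h4 := h1.prod h3
  refine h4.mono ?_
  rintro x ⟨⟨ha, hb⟩, hc, _⟩
  exact ⟨ha, hb, hc⟩

theorem goalDAT (hPL : G_PL) : G_DAT := by
  intro m k n e B hB hF
  obtain ⟨hsm, hX, hT, hfd, _⟩ := hPL
  have hfsm : ContDiff ℝ 2 (fderiv ℝ pol) := hsm.fderiv_right (by norm_num)
  have hBp : ContDiff ℝ 2 (fun x => B (pol x)) := (hB.smooth_B.comp hsm).of_le (by norm_num)
  have hep : ContDiff ℝ 3 (fun x => e (pol x)) := hB.smooth_e.comp hsm
  have hbb : ContDiff ℝ 2 (bb B) := hBp.clm_apply (hfsm.clm_apply contDiff_const)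
  have hcc : ContDiff ℝ 2 (cc B) := hBp.clm_apply (hfsm.clm_apply contDiff_const)
  have hchain : ∀ x a, fderiv ℝ (fun x => e (pol x)) x a =
      B (pol x) (fderiv ℝ pol x a) * e (pol x) - e (pol x) * B (pol x) (fderiv ℝ pol x a) := by
    intro x a
    have h1 : fderiv ℝ (fun x => e (pol x)) x = (fderiv ℝ e (pol x)).comp (fderiv ℝ pol x) := by
      apply fderiv_comp x
      · exact (hB.smooth_e.differentiable (by norm_num)) _
      · exact (hsm.differentiable (by norm_num)) _
    rw [h1, ContinuousLinearMap.comp_apply, hB.par _ (hX x) _ (hT x a)]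
  have hexp : ∀ t : ℝ, Complex.exp (((t + 2 * Real.pi : ℝ) : ℂ) * Complex.I) =
      Complex.exp ((t : ℂ) * Complex.I) := by
    intro t
    push_cast
    rw [add_mul, Complex.exp_add, Complex.exp_two_pi_mul_I, mul_one]
  have pα : ∀ r θ α β : ℝ, pol (r, θ, α + 2 * Real.pi, β) = pol (r, θ, α, β) := by
    intro r θ α β
    simp only [pol]
    rw [hexp]
  have pβ : ∀ r θ α β : ℝ, pol (r, θ, α, β + 2 * Real.pi) = pol (r, θ, α, β) := by
    intro r θ α β
    simp only [pol]
    rw [hexp]
  have fα : ∀ (r θ α β : ℝ) (a : R4), fderiv ℝ pol (r, θ, α + 2 * Real.pi, β) a =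
      fderiv ℝ pol (r, θ, α, β) a := by
    intro r θ α β a
    rw [hfd, hfd]
    simp only
    rw [hexp]
  have fβ : ∀ (r θ α β : ℝ) (a : R4), fderiv ℝ pol (r, θ, α, β + 2 * Real.pi) a =
      fderiv ℝ pol (r, θ, α, β) a := by
    intro r θ α β a
    rw [hfd, hfd]
    simp only
    rw [hexp]
  refine
    { smε := hep.of_le (by norm_num)
      smb := hbb.of_le (by norm_num)
      smc := hcc.of_le (by norm_num)
      idem := fun x => hB.idem _ (hX x)
      symm := fun x => hB.symm _ (hX x)
      skb := fun x => hB.skew _ (hX x) _ (hT x _)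
      skc := fun x => hB.skew _ (hX x) _ (hT x _)
      dr := fun x => hchain x _
      dt := fun x => hchain x _
      flat := ?_
      perα := ?_
      perβ := ?_
      r0 := ?_
      r1 := ?_
      t0 := ?_
      t1 := ?_ }
  · have hcont : Continuous (fun x => FF B x * e (pol x)) := by
      have c1 : Continuous (fun x => fderiv ℝ (cc B) x (1, 0, 0, 0)) :=
        (hcc.continuous_fderiv (by norm_num)).clm_apply continuous_const
      have c2 : Continuous (fun x => fderiv ℝ (bb B) x (0, 1, 0, 0)) :=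
        (hbb.continuous_fderiv (by norm_num)).clm_apply continuous_const
      have c3 := hbb.continuous
      have c4 := hcc.continuous
      have c5 := hep.continuous
      unfold FF
      exact (((c1.sub c2).sub ((c3.mul c4).sub (c4.mul c3)))).mul c5
    have h0 : (fun x => FF B x * e (pol x)) = fun _ => 0 :=
      hcont.ext_on dense_reg continuous_const (fun x hx => hF x hx)
    intro x
    exact congrFun h0 x
  · intro r θ α β
    refine ⟨?_, ?_, ?_⟩
    · simp only [pα]
    · simp only [bb, fα, pα]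
    · simp only [cc, fα, pα]
  · intro r θ α β
    refine ⟨?_, ?_, ?_⟩
    · simp only [pβ]
    · simp only [bb, fβ, pβ]
    · simp only [cc, fβ, pβ]
  · intro θ α β
    have p0 : pol (0, θ, α, β) = pol (0, θ, 0, β) := by
      simp [pol]
    have f0 : fderiv ℝ pol (0, θ, α, β) (0, 1, 0, 0) =
        fderiv ℝ pol (0, θ, 0, β) (0, 1, 0, 0) := by
      rw [hfd, hfd]
      simp
    refine ⟨?_, ?_⟩
    · simp only [p0]
    · simp only [cc, f0, p0]
  · intro θ α β
    have hz : ‖Complex.exp ((α : ℂ) * Complex.I)‖ = 1 := Complex.norm_exp_ofReal_mul_I α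
    have hm : Complex.exp ((α : ℂ) * Complex.I) ^ m *
        Complex.exp (((β - m * α : ℝ) : ℂ) * Complex.I) = Complex.exp ((β : ℂ) * Complex.I) := by
      rw [← Complex.exp_int_mul, ← Complex.exp_add]
      congr 1
      push_cast
      ring
    have p1 : pol (Real.pi / 2, θ, α, β) =
        act m (Complex.exp ((α : ℂ) * Complex.I)) (pol (Real.pi / 2, θ, 0, β - m * α)) := by
      simp only [pol, act]
      rw [← mul_assoc (Complex.exp ((α : ℂ) * Complex.I) ^ m), hm]
      simp
    have f1 : fderiv ℝ pol (Real.pi / 2, θ, α, β) (0, 1, 0, 0) =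
        act m (Complex.exp ((α : ℂ) * Complex.I))
          (fderiv ℝ pol (Real.pi / 2, θ, 0, β - m * α) (0, 1, 0, 0)) := by
      rw [hfd, hfd]
      simp only [act]
      rw [← mul_assoc (Complex.exp ((α : ℂ) * Complex.I) ^ m), hm]
      simp
    refine ⟨?_, ?_⟩
    · show e (pol (Real.pi / 2, θ, α, β)) = e (pol (Real.pi / 2, θ, 0, β - m * α))
      rw [p1]
      exact hB.inv _ hz _ (hX _)
    · simp only [cc]
      rw [p1, f1]
      exact hB.inv_B _ hz _ (hX _) _ (hT _ _)
  · intro r α β
    have p0 : pol (r, 0, α, β) = pol (r, 0, α, 0) := by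
      simp [pol]
    have f0 : fderiv ℝ pol (r, 0, α, β) (1, 0, 0, 0) =
        fderiv ℝ pol (r, 0, α, 0) (1, 0, 0, 0) := by
      rw [hfd, hfd]
      simp
    refine ⟨?_, ?_⟩
    · simp only [p0]
    · simp only [bb, f0, p0]
  · intro r α β
    have p0 : pol (r, Real.pi, α, β) = pol (r, Real.pi, α, 0) := by
      simp [pol]
    have f0 : fderiv ℝ pol (r, Real.pi, α, β) (1, 0, 0, 0) =
        fderiv ℝ pol (r, Real.pi, α, 0) (1, 0, 0, 0) := by
      rw [hfd, hfd]
      simp
    refine ⟨?_, ?_⟩
    · simp only [p0]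
    · simp only [bb, f0, p0]

end Pool.Agent.Helper14.QS
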